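import Mathlib

/-!
# Minimal cubic generators of apolar ideals of concise cubics

Notation of the problem: `S = ℂ[x_1, …, x_m]` acts on forms by contraction,
`Ann(T) = {f ∈ S : f ⌟ T = 0}`, and a cubic form `T` is concise when `Ann(T)` contains no nonzero
linear form.  The number of minimal cubic generators of `Ann(T)` is
`dim Ann(T)_3 - dim (S_1 · Ann(T)_2)`.

We show that in `m = n (n + 3) / 2` variables there is a concise cubic whose apolar ideal has
at least `C(n + 2, 3)` minimal cubic generators.  For `n = 3` this is `m = 9` and `10 ≥ 9`.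
The cubic is `T = ∑_{i ≤ j} q_{ij} u_i u_j` in the `n` variables `u_i` and the `n (n + 1) / 2`
variables `q_{ij}`.
-/

namespace Pool.Agent.Results.MP_1eaf4f_ag.CubicGens

open MvPolynomial

/-- The contraction (apolarity) action `f ⌟ T` of `S = ℂ[x_1, …, x_m]` on forms:
on monomials `x^s ⌟ X^t = X^(t - s)` if `s ≤ t` and `x^s ⌟ X^t = 0` otherwise, extended
bilinearly.  (`T.divMonomial s` is `x^s ⌟ T`: its `t`-th coefficient is the `(s + t)`-th
coefficient of `T`.)  A cubic form `T` stands here for the symmetric tensor whose `(i, j, k)`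
entry is the coefficient of `X_i X_j X_k` in `T` (divided power convention); over `ℂ` the
action by differentiation gives the same ideals after rescaling the coefficients of `T`. -/
noncomputable def contract {m : ℕ} (f T : MvPolynomial (Fin m) ℂ) : MvPolynomial (Fin m) ℂ :=
  ∑ s ∈ f.support, coeff s f • T.divMonomial s

theorem contract_eq_sum {m : ℕ} (f T : MvPolynomial (Fin m) ℂ) (A : Finset (Fin m →₀ ℕ))
    (hA : f.support ⊆ A) : contract f T = ∑ s ∈ A, coeff s f • T.divMonomial s := by
  unfold contract
  apply Finset.sum_subset hA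
  intro s _ hs
  rw [notMem_support_iff.mp hs, zero_smul]

theorem coeff_contract {m : ℕ} (f T : MvPolynomial (Fin m) ℂ) (t : Fin m →₀ ℕ) :
    coeff t (contract f T) = ∑ s ∈ f.support, coeff s f * coeff (s + t) T := by
  unfold contract
  rw [coeff_sum]
  apply Finset.sum_congr rfl
  intro s _
  rw [coeff_smul, coeff_divMonomial, smul_eq_mul]

theorem contract_add {m : ℕ} (f g T : MvPolynomial (Fin m) ℂ) :
    contract (f + g) T = contract f T + contract g T := by
  classical
  rw [contract_eq_sum (f + g) T (f.support ∪ g.support) support_add,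
    contract_eq_sum f T (f.support ∪ g.support) Finset.subset_union_left,
    contract_eq_sum g T (f.support ∪ g.support) Finset.subset_union_right,
    ← Finset.sum_add_distrib]
  apply Finset.sum_congr rfl
  intro s _
  rw [coeff_add, add_smul]

theorem contract_monomial {m : ℕ} (s : Fin m →₀ ℕ) (a : ℂ) (T : MvPolynomial (Fin m) ℂ) :
    contract (monomial s a) T = a • T.divMonomial s := by
  classical
  rw [contract_eq_sum (monomial s a) T {s} support_monomial_subset, Finset.sum_singleton,
    coeff_monomial, if_pos rfl]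

theorem contract_zero {m : ℕ} (f : MvPolynomial (Fin m) ℂ) : contract f 0 = 0 := by
  unfold contract
  simp

theorem contract_smul_right {m : ℕ} (a : ℂ) (f T : MvPolynomial (Fin m) ℂ) :
    contract f (a • T) = a • contract f T := by
  ext t
  rw [coeff_contract, coeff_smul, coeff_contract, smul_eq_mul, Finset.mul_sum]
  apply Finset.sum_congr rfl
  intro s _
  rw [coeff_smul, smul_eq_mul]
  ring

/-- `(g f) ⌟ T = g ⌟ (f ⌟ T)`: contraction makes the forms an `S`-module. -/
theorem contract_mul {m : ℕ} (g f T : MvPolynomial (Fin m) ℂ) :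
    contract (g * f) T = contract g (contract f T) := by
  classical
  induction g using MvPolynomial.induction_on' with
  | monomial s a =>
    induction f using MvPolynomial.induction_on' with
    | monomial t b =>
      rw [monomial_mul, contract_monomial, contract_monomial, contract_monomial]
      ext w
      simp only [coeff_smul, coeff_divMonomial, smul_eq_mul]
      rw [show s + t + w = t + (s + w) by abel]
      ring
    | add p q hp hq =>
      rw [mul_add, contract_add, contract_add, hp, hq, contract_monomial, contract_monomial,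
        contract_monomial]
      ext w
      simp only [coeff_smul, coeff_divMonomial, smul_eq_mul, coeff_add]
      ring
  | add p q hp hq =>
    rw [add_mul, contract_add, contract_add, hp, hq]

/-- The apolar ideal `Ann(T) = {f ∈ S : f ⌟ T = 0}`. -/
noncomputable def Ann {m : ℕ} (T : MvPolynomial (Fin m) ℂ) : Ideal (MvPolynomial (Fin m) ℂ) where
  carrier := {f | contract f T = 0}
  add_mem' := by
    intro f g hf hg
    change contract (f + g) T = 0
    rw [contract_add, show contract f T = 0 from hf, show contract g T = 0 from hg, add_zero]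
  zero_mem' := by
    change contract 0 T = 0
    unfold contract
    simp
  smul_mem' := by
    intro g f hf
    change contract (g * f) T = 0
    rw [contract_mul, show contract f T = 0 from hf, contract_zero]

/-- The degree `d` part `Ann(T)_d` of the apolar ideal, a complex vector space. -/
noncomputable def AnnDeg {m : ℕ} (T : MvPolynomial (Fin m) ℂ) (d : ℕ) :
    Submodule ℂ (MvPolynomial (Fin m) ℂ) :=
  (Ann T).restrictScalars ℂ ⊓ homogeneousSubmodule (Fin m) ℂ d

/-- `T` is concise: `Ann(T)` contains no nonzero linear form. -/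
def IsConcise {m : ℕ} (T : MvPolynomial (Fin m) ℂ) : Prop :=
  ∀ l ∈ AnnDeg T 1, l = 0

/-- The number of minimal cubic generators of `Ann(T)`, i.e.
`dim Ann(T)_3 - dim (S_1 · Ann(T)_2)`. -/
noncomputable def numMinCubicGens {m : ℕ} (T : MvPolynomial (Fin m) ℂ) : ℕ :=
  Module.finrank ℂ (AnnDeg T 3) -
    Module.finrank ℂ
      (homogeneousSubmodule (Fin m) ℂ 1 * AnnDeg T 2 : Submodule ℂ (MvPolynomial (Fin m) ℂ))

/-! ### The cubic -/

section cubic

variable {m n : ℕ} (U : Fin n → Fin m) (Q : Sym2 (Fin n) → Fin m)

/-- Exponent of `u_i u_j`. -/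
noncomputable def E (z : Sym2 (Fin n)) : Fin m →₀ ℕ :=
  Sym2.lift ⟨fun i j => Finsupp.single (U i) 1 + Finsupp.single (U j) 1,
    fun _ _ => add_comm _ _⟩ z

/-- The cubic `∑_{i ≤ j} q_{ij} u_i u_j`. -/
noncomputable def cubic : MvPolynomial (Fin m) ℂ :=
  ∑ z : Sym2 (Fin n), monomial (Finsupp.single (Q z) 1 + E U z) 1

theorem coeff_cubic (w : Fin m →₀ ℕ) :
    coeff w (cubic U Q) = ∑ z : Sym2 (Fin n),
      if Finsupp.single (Q z) 1 + E U z = w then (1 : ℂ) else 0 := by
  classical
  unfold cubic
  rw [coeff_sum]
  apply Finset.sum_congr rfl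
  intro z _
  rw [coeff_monomial]

theorem E_mk (i j : Fin n) :
    E U s(i, j) = Finsupp.single (U i) 1 + Finsupp.single (U j) 1 := rfl

theorem degree_E (z : Sym2 (Fin n)) : (E U z).degree = 2 := by
  induction z using Sym2.ind with
  | _ i j => rw [E_mk, map_add, Finsupp.degree_single, Finsupp.degree_single]

variable {U Q}

theorem E_apply_Q (hUQ : ∀ i z, U i ≠ Q z) (z z' : Sym2 (Fin n)) : E U z (Q z') = 0 := by
  induction z using Sym2.ind with
  | _ i j =>
    rw [E_mk, Finsupp.add_apply, Finsupp.single_eq_of_ne (hUQ i z').symm,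
      Finsupp.single_eq_of_ne (hUQ j z').symm, add_zero]

theorem E_injective (hU : Function.Injective U) : Function.Injective (E U) := by
  intro z z' h
  induction z using Sym2.ind with
  | _ i j =>
    induction z' using Sym2.ind with
    | _ k l =>
      rw [E_mk, E_mk] at h
      have h2 := congrArg Finsupp.toMultiset h
      simp only [map_add, Finsupp.toMultiset_single, one_smul] at h2
      have h3 : (s(U i, U j) : Sym2 (Fin m)) = s(U k, U l) := by
        rw [Sym2.eq_iff]
        have h4 : ({U i, U j} : Multiset (Fin m)) = {U k, U l} := h2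
        rcases Multiset.cons_eq_cons.mp h4 with ⟨h5, h6⟩ | ⟨h5, c, h6, h7⟩
        · left
          exact ⟨h5, Multiset.singleton_inj.mp h6⟩
        · right
          have h8 : c = 0 := by
            have := congrArg Multiset.card h6
            simp only [Multiset.card_singleton, Multiset.card_cons] at this
            exact Multiset.card_eq_zero.mp (by omega)
          subst h8
          refine ⟨?_, ?_⟩
          · exact (Multiset.singleton_inj.mp h7).symm
          · exact Multiset.singleton_inj.mp h6
      have h9 : Sym2.map U s(i, j) = Sym2.map U s(k, l) := h3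
      exact Sym2.map.injective hU h9

/-- Coefficients of the cubic at exponents divisible by `q_z`. -/
theorem coeff_cubic_add_Q (hQ : Function.Injective Q) (hUQ : ∀ i z, U i ≠ Q z)
    (s : Fin m →₀ ℕ) (z : Sym2 (Fin n)) :
    coeff (s + Finsupp.single (Q z) 1) (cubic U Q) = if s = E U z then 1 else 0 := by
  classical
  rw [coeff_cubic]
  rw [Finset.sum_eq_single z]
  · by_cases h : s = E U z
    · rw [if_pos h, if_pos (by rw [h, add_comm])]
    · rw [if_neg h, if_neg]
      intro h'
      apply h
      rw [add_comm] at h'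
      exact (add_right_cancel h').symm
  · intro z' _ hz'
    rw [if_neg]
    intro h
    have h1 := DFunLike.congr_fun h (Q z)
    rw [Finsupp.add_apply, Finsupp.add_apply, E_apply_Q hUQ, Finsupp.single_eq_same,
      Finsupp.single_eq_of_ne (fun h2 => hz' (hQ h2.symm))] at h1
    omega
  · intro h
    exact absurd (Finset.mem_univ z) h

/-- Coefficients of the cubic at `x_k u_i u_j`. -/
theorem coeff_cubic_single_add_E (hU : Function.Injective U)
    (hUQ : ∀ i z, U i ≠ Q z) (k : Fin m) (z : Sym2 (Fin n)) :
    coeff (Finsupp.single k 1 + E U z) (cubic U Q) = if k = Q z then 1 else 0 := by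
  classical
  rw [coeff_cubic]
  rw [Finset.sum_eq_single z]
  · by_cases h : k = Q z
    · rw [if_pos h, if_pos (by rw [h])]
    · rw [if_neg h, if_neg]
      intro h'
      apply h
      have h1 := add_right_cancel h'
      have h2 := DFunLike.congr_fun h1 (Q z)
      rw [Finsupp.single_eq_same] at h2
      by_contra h3
      rw [Finsupp.single_eq_of_ne (fun h4 => h3 h4.symm)] at h2
      omega
  · intro z' _ hz'
    rw [if_neg]
    intro h
    have h1 := DFunLike.congr_fun h (Q z')
    rw [Finsupp.add_apply, Finsupp.add_apply, E_apply_Q hUQ, E_apply_Q hUQ,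
      Finsupp.single_eq_same] at h1
    have h2 : Q z' = k := by
      by_contra h3
      rw [Finsupp.single_eq_of_ne h3] at h1
      omega
    subst h2
    exact hz' (E_injective hU (add_left_cancel h))
  · intro h
    exact absurd (Finset.mem_univ z) h

theorem cubic_isHomogeneous : (cubic U Q).IsHomogeneous 3 := by
  unfold cubic
  apply IsHomogeneous.sum
  intro z _
  apply isHomogeneous_monomial
  rw [map_add, Finsupp.degree_single, degree_E]

theorem exists_single_of_degree_one {w : Fin m →₀ ℕ} (hw : w.degree = 1) :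
    ∃ k, w = Finsupp.single k 1 := by
  have h1 : Multiset.card (Finsupp.toMultiset w) = 1 := by
    rw [Finsupp.card_toMultiset]
    rw [← hw, Finsupp.degree_apply]
    rfl
  obtain ⟨k, hk⟩ := Multiset.card_eq_one.mp h1
  refine ⟨k, ?_⟩
  apply Finsupp.orderIsoMultiset.injective
  rw [Finsupp.coe_orderIsoMultiset]
  rw [hk, Finsupp.toMultiset_single, one_smul]

theorem exists_E_of_degree_two {w : Fin m →₀ ℕ} (hcov : ∀ k, (∃ i, U i = k) ∨ ∃ z, Q z = k)
    (hw : w.degree = 2) (hwQ : ∀ z, w (Q z) = 0) : ∃ z, w = E U z := by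
  have h1 : Multiset.card (Finsupp.toMultiset w) = 2 := by
    rw [Finsupp.card_toMultiset]
    rw [← hw, Finsupp.degree_apply]
    rfl
  obtain ⟨a, b, hab⟩ := Multiset.card_eq_two.mp h1
  have hw2 : w = Finsupp.single a 1 + Finsupp.single b 1 := by
    apply Finsupp.orderIsoMultiset.injective
    rw [Finsupp.coe_orderIsoMultiset]
    rw [hab, map_add, Finsupp.toMultiset_single, Finsupp.toMultiset_single, one_smul, one_smul]
    rfl
  have key : ∀ c, w c ≠ 0 → ∃ i, U i = c := by
    intro c hc
    rcases hcov c with h | ⟨z, hz⟩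
    · exact h
    · exact absurd (hz ▸ hwQ z) hc
  obtain ⟨i, hi⟩ := key a (by rw [hw2, Finsupp.add_apply, Finsupp.single_eq_same]; omega)
  obtain ⟨j, hj⟩ := key b (by rw [hw2, Finsupp.add_apply, Finsupp.single_eq_same]; omega)
  exact ⟨s(i, j), by rw [hw2, E_mk, hi, hj]⟩

/-- The cubic is concise. -/
theorem cubic_isConcise (hU : Function.Injective U) (hQ : Function.Injective Q)
    (hUQ : ∀ i z, U i ≠ Q z) (hcov : ∀ k, (∃ i, U i = k) ∨ ∃ z, Q z = k) :
    IsConcise (cubic U Q) := by
  classical
  intro l hl
  obtain ⟨hl1, hl2⟩ := hl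
  have hl1 : contract l (cubic U Q) = 0 := hl1
  have hl2 : l.IsHomogeneous 1 := hl2
  have hcoef : ∀ k, coeff (Finsupp.single k 1) l = 0 := by
    intro k
    rcases hcov k with ⟨i, rfl⟩ | ⟨z, rfl⟩
    · have h := congrArg (coeff (Finsupp.single (U i) 1 + Finsupp.single (Q s(i, i)) 1)) hl1
      rw [coeff_contract, coeff_zero] at h
      simp_rw [← add_assoc, coeff_cubic_add_Q hQ hUQ] at h
      by_contra hne
      apply hne
      rw [← h, Finset.sum_eq_single (Finsupp.single (U i) 1)]
      · rw [if_pos (E_mk U i i).symm, mul_one]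
      · intro s _ hs
        rw [if_neg, mul_zero]
        intro h'
        apply hs
        rw [E_mk] at h'
        exact add_right_cancel h'
      · intro h'
        rw [notMem_support_iff.mp h', zero_mul]
    · have h := congrArg (coeff (E U z)) hl1
      rw [coeff_contract, coeff_zero] at h
      by_contra hne
      apply hne
      rw [← h, Finset.sum_eq_single (Finsupp.single (Q z) 1)]
      · rw [coeff_cubic_single_add_E hU hUQ, if_pos rfl, mul_one]
      · intro s hs hs'
        have hdeg : s.degree = 1 := by
          by_contra hd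
          exact (mem_support_iff.mp hs) (hl2.coeff_eq_zero hd)
        obtain ⟨k, rfl⟩ := exists_single_of_degree_one hdeg
        rw [coeff_cubic_single_add_E hU hUQ, if_neg, mul_zero]
        intro h'
        exact hs' (by rw [h'])
      · intro h'
        rw [notMem_support_iff.mp h', zero_mul]
  ext w
  rw [coeff_zero]
  by_cases hd : w.degree = 1
  · obtain ⟨k, rfl⟩ := exists_single_of_degree_one hd
    exact hcoef k
  · exact hl2.coeff_eq_zero hd

/-- Polynomials with no monomial in the variables `u` only. -/
def noPureU (Q : Sym2 (Fin n) → Fin m) : Submodule ℂ (MvPolynomial (Fin m) ℂ) where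
  carrier := {f | ∀ w : Fin m →₀ ℕ, (∀ z, w (Q z) = 0) → coeff w f = 0}
  add_mem' := by
    intro f g hf hg w hw
    rw [coeff_add, hf w hw, hg w hw, add_zero]
  zero_mem' := by
    intro w _
    exact coeff_zero w
  smul_mem' := by
    intro a f hf w hw
    rw [coeff_smul, hf w hw, smul_zero]

theorem annDeg_two_le (hQ : Function.Injective Q)
    (hUQ : ∀ i z, U i ≠ Q z) (hcov : ∀ k, (∃ i, U i = k) ∨ ∃ z, Q z = k) :
    AnnDeg (cubic U Q) 2 ≤ noPureU Q := by
  classical
  intro f hf w hw
  obtain ⟨hf1, hf2⟩ := hf
  have hf1 : contract f (cubic U Q) = 0 := hf1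
  have hf2 : f.IsHomogeneous 2 := hf2
  by_cases hd : w.degree = 2
  · obtain ⟨z, rfl⟩ := exists_E_of_degree_two hcov hd hw
    have h := congrArg (coeff (Finsupp.single (Q z) 1)) hf1
    rw [coeff_contract, coeff_zero] at h
    simp_rw [coeff_cubic_add_Q hQ hUQ] at h
    by_contra hne
    apply hne
    rw [← h, Finset.sum_eq_single (E U z)]
    · rw [if_pos rfl, mul_one]
    · intro s _ hs
      rw [if_neg hs, mul_zero]
    · intro h'
      rw [notMem_support_iff.mp h', zero_mul]
  · exact hf2.coeff_eq_zero hd

theorem mul_mem_noPureU (g f : MvPolynomial (Fin m) ℂ) (hf : f ∈ noPureU Q) :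
    g * f ∈ noPureU Q := by
  classical
  intro w hw
  rw [coeff_mul]
  apply Finset.sum_eq_zero
  rintro ⟨a, b⟩ hab
  replace hab : a + b = w := Finset.HasAntidiagonal.mem_antidiagonal.mp hab
  have hb : coeff b f = 0 := by
    apply hf
    intro z
    have := hw z
    rw [← hab, Finsupp.add_apply] at this
    omega
  simp only [hb, mul_zero]

/-- Cubic monomials in the `u` variables lie in `Ann(T)_3`. -/
theorem monomial_mem_annDeg_three (w : Fin m →₀ ℕ) (hw : w.degree = 3)
    (hwQ : ∀ z, w (Q z) = 0) : monomial w (1 : ℂ) ∈ AnnDeg (cubic U Q) 3 := by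
  classical
  refine ⟨?_, ?_⟩
  · change contract (monomial w 1) (cubic U Q) = 0
    rw [contract_monomial, one_smul]
    ext t
    rw [coeff_divMonomial, coeff_cubic, coeff_zero]
    apply Finset.sum_eq_zero
    intro z _
    rw [if_neg]
    intro h
    have h1 := congrArg Finsupp.degree h
    rw [map_add, map_add, Finsupp.degree_single, degree_E, hw] at h1
    have h2 : t.degree = 0 := by omega
    have h3 : t = 0 := (Finsupp.degree_eq_zero_iff t).mp h2
    subst h3
    have h4 := DFunLike.congr_fun h (Q z)
    rw [Finsupp.add_apply, Finsupp.add_apply, Finsupp.single_eq_same, hwQ] at h4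
    simp at h4
  · exact isHomogeneous_monomial _ hw

/-- Exponent of the cubic monomial of `u` variables given by a multiset of size three. -/
noncomputable def W (U : Fin n → Fin m) (μ : Sym (Fin n) 3) : Fin m →₀ ℕ :=
  Multiset.toFinsupp ((μ : Multiset (Fin n)).map U)

theorem degree_W (μ : Sym (Fin n) 3) : (W U μ).degree = 3 := by
  have h := Finsupp.card_toMultiset (W U μ)
  rw [W, Multiset.toFinsupp_toMultiset, Multiset.card_map] at h
  rw [Finsupp.degree_apply, W]
  have h2 : Multiset.card (μ : Multiset (Fin n)) = 3 := μ.2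
  rw [h2] at h
  exact h.symm

theorem W_apply_Q (hUQ : ∀ i z, U i ≠ Q z) (μ : Sym (Fin n) 3) (z : Sym2 (Fin n)) :
    W U μ (Q z) = 0 := by
  rw [W, Multiset.toFinsupp_apply, Multiset.count_eq_zero]
  intro h
  obtain ⟨i, _, hi⟩ := Multiset.mem_map.mp h
  exact hUQ i z hi

theorem W_injective (hU : Function.Injective U) : Function.Injective (W U) := by
  intro μ ν h
  have h1 := Multiset.toFinsupp.injective h
  exact Sym.coe_injective (Multiset.map_injective hU h1)

theorem choose_le_numMinCubicGens (hU : Function.Injective U) (hQ : Function.Injective Q)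
    (hUQ : ∀ i z, U i ≠ Q z) (hcov : ∀ k, (∃ i, U i = k) ∨ ∃ z, Q z = k) :
    (n + 2).choose 3 ≤ numMinCubicGens (cubic U Q) := by
  classical
  set P : Submodule ℂ (MvPolynomial (Fin m) ℂ) :=
    homogeneousSubmodule (Fin m) ℂ 1 * AnnDeg (cubic U Q) 2 with hP
  set K : Submodule ℂ (MvPolynomial (Fin m) ℂ) := AnnDeg (cubic U Q) 3 with hK
  let v : Sym (Fin n) 3 → MvPolynomial (Fin m) ℂ := fun μ => monomial (W U μ) 1
  set L : Submodule ℂ (MvPolynomial (Fin m) ℂ) := Submodule.span ℂ (Set.range v) with hL
  have : Module.Finite ℂ (homogeneousSubmodule (Fin m) ℂ 3) :=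
    Module.Finite.iff_fg.mpr (homogeneousSubmodule_fg (Fin m) ℂ 3)
  have hKle : K ≤ homogeneousSubmodule (Fin m) ℂ 3 := inf_le_right
  have : Module.Finite ℂ K := Submodule.finiteDimensional_of_le hKle
  have hPK : P ≤ K := by
    rw [hP, Submodule.mul_le]
    rintro l hl f ⟨hf1, hf2⟩
    refine ⟨?_, ?_⟩
    · exact Ideal.mul_mem_left _ l hf1
    · exact homogeneousSubmodule_mul 1 2 (Submodule.mul_mem_mul hl hf2)
  have : Module.Finite ℂ P := Submodule.finiteDimensional_of_le hPK
  have hLK : L ≤ K := by
    rw [hL, Submodule.span_le]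
    rintro _ ⟨μ, rfl⟩
    exact monomial_mem_annDeg_three _ (degree_W μ) (W_apply_Q hUQ μ)
  have : Module.Finite ℂ L := Submodule.finiteDimensional_of_le hLK
  have hPN : P ≤ noPureU Q := by
    rw [hP, Submodule.mul_le]
    intro l _ f hf
    exact mul_mem_noPureU l f (annDeg_two_le hQ hUQ hcov hf)
  have hvli : LinearIndependent ℂ v := by
    have h := (basisMonomials (Fin m) ℂ).linearIndependent.comp (W U) (W_injective hU)
    exact h
  have hLrank : Module.finrank ℂ L = (n + 2).choose 3 := by
    rw [hL, finrank_span_eq_card hvli, Sym.card_sym_eq_choose, Fintype.card_fin]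
    rfl
  have hdisj : P ⊓ L = ⊥ := by
    rw [eq_bot_iff]
    rintro f ⟨hfP, hfL⟩
    have hfN := hPN hfP
    have hfsup : ∀ w : Fin m →₀ ℕ, (¬ ∀ z, w (Q z) = 0) → coeff w f = 0 := by
      intro w hw
      have hle : L ≤ LinearMap.ker (lcoeff ℂ w) := by
        rw [hL, Submodule.span_le]
        rintro _ ⟨μ, rfl⟩
        change coeff w (monomial (W U μ) (1 : ℂ)) = 0
        rw [coeff_monomial, if_neg]
        intro h
        apply hw
        intro z
        rw [← h]
        exact W_apply_Q hUQ μ z
      exact hle hfL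
    rw [Submodule.mem_bot]
    ext w
    rw [coeff_zero]
    by_cases hw : ∀ z, w (Q z) = 0
    · exact hfN w hw
    · exact hfsup w hw
  have hsum := Submodule.finrank_sup_add_finrank_inf_eq P L
  rw [hdisj, finrank_bot, add_zero, hLrank] at hsum
  have hle : Module.finrank ℂ (P ⊔ L : Submodule ℂ (MvPolynomial (Fin m) ℂ)) ≤
      Module.finrank ℂ K := Submodule.finrank_mono (sup_le hPK hLK)
  unfold numMinCubicGens
  rw [← hK, ← hP]
  omega

end cubic

/-- **Main result.**  For every `n` there is a concise cubic form in `m = n (n + 3) / 2`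
variables whose apolar ideal has at least `C(n + 2, 3)` minimal cubic generators.
For `n = 3`: `m = 9` and at least `10` minimal cubic generators. -/
theorem result (n : ℕ) : ∃ T : MvPolynomial (Fin (n * (n + 3) / 2)) ℂ,
    T.IsHomogeneous 3 ∧ IsConcise T ∧ (n + 2).choose 3 ≤ numMinCubicGens T := by
  have hcard : Fintype.card (Fin n ⊕ Sym2 (Fin n)) = n * (n + 3) / 2 := by
    rw [Fintype.card_sum, Sym2.card, Fintype.card_fin, Nat.choose_two_right]
    have h1 : n * (n + 3) = 2 * n + (n + 1) * n := by ring
    rw [h1, Nat.mul_add_div (by norm_num)]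
    rfl
  let e : (Fin n ⊕ Sym2 (Fin n)) ≃ Fin (n * (n + 3) / 2) := Fintype.equivFinOfCardEq hcard
  let U : Fin n → Fin (n * (n + 3) / 2) := fun i => e (Sum.inl i)
  let Q : Sym2 (Fin n) → Fin (n * (n + 3) / 2) := fun z => e (Sum.inr z)
  have hU : Function.Injective U := fun i j h => Sum.inl_injective (e.injective h)
  have hQ : Function.Injective Q := fun i j h => Sum.inr_injective (e.injective h)
  have hUQ : ∀ i z, U i ≠ Q z := fun i z h => Sum.inl_ne_inr (e.injective h)
  have hcov : ∀ k, (∃ i, U i = k) ∨ ∃ z, Q z = k := by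
    intro k
    obtain ⟨x, rfl⟩ := e.surjective k
    rcases x with i | z
    · exact Or.inl ⟨i, rfl⟩
    · exact Or.inr ⟨z, rfl⟩
  exact ⟨cubic U Q, cubic_isHomogeneous, cubic_isConcise hU hQ hUQ hcov,
    choose_le_numMinCubicGens hU hQ hUQ hcov⟩

/-- The question as posed: there are `m ≥ 1` and a concise cubic form in `m` variables whose
apolar ideal has at least `m` minimal cubic generators (the case `n = 3`, `m = 9`). -/
theorem question_one : ∃ m : ℕ, 1 ≤ m ∧ ∃ T : MvPolynomial (Fin m) ℂ,
    T.IsHomogeneous 3 ∧ IsConcise T ∧ m ≤ numMinCubicGens T := by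
  obtain ⟨T, h1, h2, h3⟩ := result 3
  refine ⟨9, by norm_num, T, h1, h2, ?_⟩
  have h4 : (3 + 2).choose 3 = 10 := by decide
  omega

end Pool.Agent.Results.MP_1eaf4f_ag.CubicGens
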